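import Pool.Agent.Y315.OP.Stm

/-!
# OP-MAXP and OP-STEP: a maximum principle and the improvement of a bound on a ball
-/

set_option autoImplicit false

open MeasureTheory Filter Topology Metric ContinuousLinearMap
open scoped ContDiff ENNReal Convolution

namespace Pool.Agent.Y953.OP

open Pool.Agent.Y315.OP

variable {d : ℕ}

/-- second derivative in the direction `v` as a second derivative of one variable -/
theorem dd_eq {f : E d → ℝ} (hf : ContDiff ℝ ∞ f) (x v : E d) :
    deriv (deriv fun s : ℝ => f (x + s • v)) 0 = fderiv ℝ (fun y => fderiv ℝ f y v) x v := by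
  have h1 : ∀ s : ℝ, HasDerivAt (fun s : ℝ => x + s • v) v s := fun s => by
    simpa using ((hasDerivAt_id s).smul_const v).const_add x
  have h2 : deriv (fun s : ℝ => f (x + s • v)) = fun s => fderiv ℝ f (x + s • v) v := by
    ext s
    have := (hf.differentiable (by simp) (x + s • v)).hasFDerivAt.comp_hasDerivAt s (h1 s)
    exact this.deriv
  rw [h2]
  have hg : ContDiff ℝ ∞ fun y => fderiv ℝ f y v :=
    (hf.fderiv_right (m := ∞) (by simp)).clm_apply contDiff_const
  have h3 := (hg.differentiable (by simp) (x + (0 : ℝ) • v)).hasFDerivAt.comp_hasDerivAt 0 (h1 0)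
  have h4 := h3.deriv
  simpa [Function.comp_def] using h4

theorem dd_nonpos {g : ℝ → ℝ} (hg : IsLocalMax g 0) (hc : ContinuousAt g 0) :
    deriv (deriv g) 0 ≤ 0 := by
  by_contra hcon
  push Not at hcon
  have h1 := isLocalMin_of_deriv_deriv_pos hcon hg.deriv_eq_zero hc
  have h2 : g =ᶠ[𝓝 0] fun _ => g 0 := by
    filter_upwards [hg, h1] with y hy hy'
    exact le_antisymm hy hy'
  have h3 : deriv g =ᶠ[𝓝 0] deriv fun _ => g 0 := h2.deriv
  have h4 := h3.deriv_eq
  simp at h4
  linarith

theorem lap_nonpos {f : E d → ℝ} (hf : ContDiff ℝ ∞ f) {x : E d} (hx : IsLocalMax f x) :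
    lap f x ≤ 0 := by
  refine Finset.sum_nonpos fun i _ => ?_
  rw [← dd_eq hf]
  have hcont : Continuous fun s : ℝ => x + s • (EuclideanSpace.single i (1 : ℝ) : E d) := by
    fun_prop
  refine dd_nonpos ?_ (hf.continuous.comp hcont).continuousAt
  have h1 : Tendsto (fun s : ℝ => x + s • (EuclideanSpace.single i (1 : ℝ) : E d)) (𝓝 0) (𝓝 x) := by
    have := hcont.tendsto 0
    simpa using this
  have h2 := h1.eventually hx
  show ∀ᶠ s in 𝓝 (0 : ℝ), _ ≤ _
  filter_upwards [h2] with s hs
  simpa using hs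

theorem lap_sub {f g : E d → ℝ} (hf : ContDiff ℝ ∞ f) (hg : ContDiff ℝ ∞ g) (x : E d) :
    lap (fun y => f y - g y) x = lap f x - lap g x := by
  unfold lap
  rw [← Finset.sum_sub_distrib]
  refine Finset.sum_congr rfl fun i _ => ?_
  set v : E d := EuclideanSpace.single i 1
  have h1 : (fun y => fderiv ℝ (fun y => f y - g y) y v)
      = fun y => fderiv ℝ f y v - fderiv ℝ g y v := by
    ext y
    rw [fderiv_fun_sub (hf.differentiable (by simp) y) (hg.differentiable (by simp) y)]
    rfl
  have hf' : ContDiff ℝ ∞ fun y => fderiv ℝ f y v :=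
    (hf.fderiv_right (m := ∞) (by simp)).clm_apply contDiff_const
  have hg' : ContDiff ℝ ∞ fun y => fderiv ℝ g y v :=
    (hg.fderiv_right (m := ∞) (by simp)).clm_apply contDiff_const
  rw [h1, fderiv_fun_sub (hf'.differentiable (by simp) x) (hg'.differentiable (by simp) x)]
  rfl

theorem lap_quad (c : ℝ) (x₀ x : E d) : lap (fun y => c * ‖y - x₀‖ ^ 2) x = 2 * d * c := by
  have h1 : ∀ (v y : E d), fderiv ℝ (fun y => c * ‖y - x₀‖ ^ 2) y v
      = c * (2 * inner ℝ (y - x₀) v) := by
    intro v y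
    have h : HasFDerivAt (fun y : E d => c * ‖y - x₀‖ ^ 2) _ y :=
      (((hasFDerivAt_id y).sub_const x₀).norm_sq).const_mul c
    rw [h.fderiv]
    simp [inner_sub_left]
  unfold lap
  have h2 : ∀ i : Fin d, fderiv ℝ (fun y => fderiv ℝ (fun y => c * ‖y - x₀‖ ^ 2) y
      (EuclideanSpace.single i 1)) x (EuclideanSpace.single i 1) = 2 * c := by
    intro i
    set v : E d := EuclideanSpace.single i 1 with hv
    have h3 : (fun y => fderiv ℝ (fun y => c * ‖y - x₀‖ ^ 2) y v)
        = fun y => c * (2 * inner ℝ (y - x₀) v) := by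
      ext y; exact h1 v y
    rw [h3]
    have h4 : HasFDerivAt (fun y : E d => c * (2 * inner ℝ (y - x₀) v))
        (c • ((2 : ℝ) • (innerSL ℝ v))) x := by
      have h5 : HasFDerivAt (fun y : E d => inner ℝ v (y - x₀)) (innerSL ℝ v) x := by
        have h := (innerSL ℝ v).hasFDerivAt.comp x ((hasFDerivAt_id x).sub_const x₀)
        rw [ContinuousLinearMap.comp_id] at h
        exact h
      have h6 := (h5.const_mul (2 : ℝ)).const_mul c
      refine h6.congr_of_eventuallyEq ?_
      filter_upwards with y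
      rw [real_inner_comm]
    rw [h4.fderiv]
    simp [hv]
    ring
  rw [Finset.sum_congr rfl fun i _ => h2 i]
  simp
  ring

theorem maxp : S_MAXP := by
  intro d z x₀ r M b _ hr hb hz hbd hsub
  have hM : 0 ≤ M := by
    have := hbd x₀ (mem_closedBall_self hr.le)
    linarith [this.1, this.2]
  set f : E d → ℝ := fun x => z x - M / r ^ 2 * ‖x - x₀‖ ^ 2 with hf
  have hq : ContDiff ℝ ∞ fun x : E d => M / r ^ 2 * ‖x - x₀‖ ^ 2 :=
    contDiff_const.mul ((contDiff_id.sub contDiff_const).norm_sq ℝ)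
  have hfc : ContDiff ℝ ∞ f := hz.sub hq
  obtain ⟨x₁, hx₁, hmax⟩ := (isCompact_closedBall x₀ r).exists_isMaxOn
    ⟨x₀, mem_closedBall_self hr.le⟩ hfc.continuous.continuousOn
  have h0 : f x₀ ≤ f x₁ := hmax (mem_closedBall_self hr.le)
  have hf0 : f x₀ = z x₀ := by simp [hf]
  have hR : 0 ≤ 2 * (d : ℝ) * M / (b * r ^ 2) := by positivity
  rcases (mem_closedBall.1 hx₁).lt_or_eq with hlt | heq
  · have hloc : IsLocalMax f x₁ :=
      (hmax.isLocalMax (closedBall_mem_nhds_of_mem (mem_ball.2 hlt)))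
    have h1 := lap_nonpos hfc hloc
    rw [hf, lap_sub hz hq, lap_quad] at h1
    have h2 := hsub x₁ (mem_ball.2 hlt)
    have h3 : f x₁ ≤ z x₁ := by
      simp only [hf]
      have : 0 ≤ M / r ^ 2 * ‖x₁ - x₀‖ ^ 2 := by positivity
      linarith
    have h4 : b * z x₀ ≤ 2 * d * (M / r ^ 2) := by
      have : b * z x₀ ≤ b * z x₁ := mul_le_mul_of_nonneg_left (by linarith) hb.le
      linarith
    rw [le_div_iff₀ (by positivity)]
    calc z x₀ * (b * r ^ 2) = (b * z x₀) * r ^ 2 := by ring
      _ ≤ (2 * d * (M / r ^ 2)) * r ^ 2 := mul_le_mul_of_nonneg_right h4 (by positivity)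
      _ = 2 * d * M := by field_simp
  · have h1 : f x₁ ≤ 0 := by
      simp only [hf]
      have h2 : ‖x₁ - x₀‖ = r := by rw [← dist_eq_norm]; exact heq
      rw [h2, div_mul_cancel₀ _ (by positivity)]
      linarith [(hbd x₁ hx₁).2]
    linarith

/-! ### mollification -/

theorem fderiv_refl {χ : E d → ℝ} (hχ : ContDiff ℝ ∞ χ) (x y v : E d) :
    fderiv ℝ (fun y => χ (x - y)) y v = - fderiv ℝ χ (x - y) v := by
  have h : HasFDerivAt (fun y => χ (x - y)) _ y :=
    (hχ.differentiable (by simp) (x - y)).hasFDerivAt.comp y ((hasFDerivAt_id y).const_sub x)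
  rw [h.fderiv]
  simp

theorem cd_dir {χ : E d → ℝ} (hχ : ContDiff ℝ ∞ χ) (v : E d) :
    ContDiff ℝ ∞ fun y => fderiv ℝ χ y v :=
  (hχ.fderiv_right (m := ∞) (by simp)).clm_apply contDiff_const

theorem tf_dir {χ : E d → ℝ} (hχ : TF χ) (v : E d) : TF fun y => fderiv ℝ χ y v := by
  refine ⟨cd_dir hχ.1 v, ?_⟩
  exact (hχ.2.fderiv ℝ).comp_left (g := fun L : E d →L[ℝ] ℝ => L v) (by simp)

theorem lap_refl {χ : E d → ℝ} (hχ : ContDiff ℝ ∞ χ) (x y : E d) :
    lap (fun y => χ (x - y)) y = lap χ (x - y) := by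
  unfold lap
  refine Finset.sum_congr rfl fun i _ => ?_
  set v : E d := EuclideanSpace.single i 1
  have h1 : (fun y => fderiv ℝ (fun y => χ (x - y)) y v)
      = fun y => -((fun a => fderiv ℝ χ a v) (x - y)) := by
    ext y; exact fderiv_refl hχ x y v
  rw [h1, fderiv_fun_neg]
  have := fderiv_refl (cd_dir hχ v) x y v
  simp only [neg_apply]
  rw [this, neg_neg]

theorem tf_refl {χ : E d → ℝ} (hχ : TF χ) (x : E d) : TF fun y => χ (x - y) :=
  ⟨hχ.1.comp (contDiff_const.sub contDiff_id), hχ.2.comp_homeomorph (Homeomorph.subLeft x)⟩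

theorem int_ok {ρ χ : E d → ℝ} (hρ : Integrable ρ) (hχ : TF χ) (x : E d) :
    Integrable fun t => ρ t * χ (x - t) := by
  have := hχ.2.convolutionExists_right (lsmul ℝ ℝ) hρ.locallyIntegrable hχ.1.continuous x
  exact this

theorem fderiv_conv {ρ χ : E d → ℝ} (hρ : Integrable ρ) (hχ : TF χ) (x v : E d) :
    fderiv ℝ (fun x => ∫ t, ρ t * χ (x - t)) x v = ∫ t, ρ t * fderiv ℝ χ (x - t) v := by
  have h1 := hχ.2.hasFDerivAt_convolution_right (lsmul ℝ ℝ) (μ := volume)
    hρ.locallyIntegrable (hχ.1.of_le (by simp)) x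
  have h2 : HasFDerivAt (fun x => ∫ t, ρ t * χ (x - t)) _ x := h1
  rw [h2.fderiv]
  rw [convolution_precompR_apply (lsmul ℝ ℝ) hρ.locallyIntegrable (hχ.2.fderiv ℝ)
    (hχ.1.continuous_fderiv (by simp)) x v]
  rfl

theorem cd_conv {ρ χ : E d → ℝ} (hρ : Integrable ρ) (hχ : TF χ) :
    ContDiff ℝ ∞ fun x => ∫ t, ρ t * χ (x - t) :=
  hχ.2.contDiff_convolution_right (lsmul ℝ ℝ) hρ.locallyIntegrable hχ.1

theorem lap_conv {ρ χ : E d → ℝ} (hρ : Integrable ρ) (hχ : TF χ) (x : E d) :
    lap (fun x => ∫ t, ρ t * χ (x - t)) x = ∫ t, ρ t * lap χ (x - t) := by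
  have h : ∀ i : Fin d, fderiv ℝ (fun y => fderiv ℝ (fun x => ∫ t, ρ t * χ (x - t)) y
      (EuclideanSpace.single i 1)) x (EuclideanSpace.single i 1)
      = ∫ t, ρ t * fderiv ℝ (fun y => fderiv ℝ χ y (EuclideanSpace.single i 1)) (x - t)
        (EuclideanSpace.single i 1) := by
    intro i
    have h1 : (fun y => fderiv ℝ (fun x => ∫ t, ρ t * χ (x - t)) y (EuclideanSpace.single i 1))
        = fun y => ∫ t, ρ t * (fun a => fderiv ℝ χ a (EuclideanSpace.single i 1)) (y - t) := by
      ext y
      exact fderiv_conv hρ hχ y _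
    rw [h1, fderiv_conv hρ (tf_dir hχ _)]
  unfold lap
  rw [Finset.sum_congr rfl fun i _ => h i, ← integral_finsetSum]
  · simp only [Finset.mul_sum]
  · intro i _
    exact int_ok hρ (tf_dir (tf_dir hχ _) _) x

theorem step (hM : S_MAXP) : S_STEP := by
  intro d ρ x₀ r M b hd hr hb hρ h0 hbd htest
  -- the bound for one mollifier
  have key : ∀ φ : ContDiffBump (0 : E d), φ.rOut < r / 4 → ∀ x ∈ ball x₀ (r / 2),
      (φ.normed volume ⋆[lsmul ℝ ℝ, volume] ρ) x ≤ 32 * d * M / (b * r ^ 2) := by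
    intro φ hφ x₁ hx₁
    set χ : E d → ℝ := φ.normed volume with hχdef
    have hχ : TF χ := ⟨φ.contDiff_normed, φ.hasCompactSupport_normed⟩
    have hpos : ∀ y, 0 ≤ χ y := fun y => φ.nonneg_normed y
    have hsupp : ∀ y, φ.rOut ≤ ‖y‖ → χ y = 0 := by
      intro y hy
      have : y ∉ Function.support χ := by
        rw [hχdef, φ.support_normed_eq]
        simpa using hy
      simpa using this
    have hint : ∀ x : E d, ∫ t, χ (x - t) = 1 := by
      intro x
      rw [integral_sub_left_eq_self χ volume x]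
      exact φ.integral_normed
    set z : E d → ℝ := fun x => ∫ t, ρ t * χ (x - t) with hz
    have hzeq : (χ ⋆[lsmul ℝ ℝ, volume] ρ) x₁ = z x₁ := by
      rw [convolution_eq_swap]
      simp only [lsmul_apply, smul_eq_mul, hz]
      refine integral_congr_ae (Eventually.of_forall fun t => ?_)
      simp only
      ring
    rw [hzeq]
    have hin : ∀ x ∈ ball x₀ (3 * r / 4), ∀ t, ‖x - t‖ < φ.rOut → t ∈ ball x₀ r := by
      intro x hx t ht
      rw [mem_ball] at hx ⊢
      have h1 : dist t x < φ.rOut := by rw [dist_comm, dist_eq_norm]; exact ht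
      linarith [dist_triangle t x x₀]
    have hb1 : ∀ x ∈ ball x₀ (3 * r / 4), 0 ≤ z x ∧ z x ≤ M := by
      intro x hx
      refine ⟨integral_nonneg fun t => mul_nonneg (h0 t) (hpos _), ?_⟩
      have h1 : z x ≤ ∫ t, M * χ (x - t) := by
        refine integral_mono_ae (int_ok hρ hχ x) ?_ ?_
        · refine Integrable.const_mul ?_ M
          exact ((hχ.1.continuous.integrable_of_hasCompactSupport hχ.2).comp_sub_left x)
        · filter_upwards [hbd] with t ht
          by_cases h : ‖x - t‖ < φ.rOut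
          · exact mul_le_mul_of_nonneg_right (ht (hin x hx t h)) (hpos _)
          · simp [hsupp _ (not_lt.1 h)]
      rw [integral_const_mul, hint, mul_one] at h1
      exact h1
    have hb2 : ∀ x ∈ ball x₀ (3 * r / 4), b * z x ≤ lap z x := by
      intro x hx
      have h1 := htest (fun y => χ (x - y)) (tf_refl hχ x) (fun y => hpos _) ?_
      · rw [lap_conv hρ hχ]
        refine h1.trans (le_of_eq ?_)
        refine integral_congr_ae (Eventually.of_forall fun t => ?_)
        simp only
        rw [lap_refl hχ.1]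
      · have h2 : tsupport (fun y => χ (x - y)) ⊆ closedBall x φ.rOut := by
          refine closure_minimal ?_ isClosed_closedBall
          intro t ht
          rw [mem_closedBall, dist_comm, dist_eq_norm]
          by_contra hcon
          exact ht (hsupp _ (not_le.1 hcon).le)
        refine h2.trans ?_
        intro t ht
        rw [mem_closedBall] at ht
        rw [mem_ball] at hx ⊢
        linarith [dist_triangle t x x₀]
    have hsub : closedBall x₁ (r / 4) ⊆ ball x₀ (3 * r / 4) := by
      intro t ht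
      rw [mem_closedBall] at ht
      rw [mem_ball] at hx₁ ⊢
      linarith [dist_triangle t x₁ x₀]
    have h3 := hM d z x₁ (r / 4) M b hd (by positivity) hb (cd_conv hρ hχ)
      (fun x hx => hb1 x (hsub hx)) (fun x hx => hb2 x (hsub (ball_subset_closedBall hx)))
    refine h3.trans (le_of_eq ?_)
    field_simp
    ring
  -- a sequence of mollifiers
  have hden : ∀ n : ℕ, (0 : ℝ) < (n : ℝ) + 2 := fun n => by positivity
  let φ : ℕ → ContDiffBump (0 : E d) := fun n =>
    { rIn := (r / 8) / ((n : ℝ) + 2)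
      rOut := (r / 4) / ((n : ℝ) + 2)
      rIn_pos := by have := hden n; positivity
      rIn_lt_rOut := by
        have := hden n
        gcongr
        linarith }
  have hφ0 : Tendsto (fun n => (φ n).rOut) atTop (𝓝 0) := by
    have h1 : Tendsto (fun n : ℕ => (n : ℝ) + 2) atTop atTop :=
      tendsto_atTop_add_const_right _ _ tendsto_natCast_atTop_atTop
    exact h1.const_div_atTop (r / 4)
  have hφK : ∀ᶠ n in atTop, (φ n).rOut ≤ 2 * (φ n).rIn := by
    refine Eventually.of_forall fun n => le_of_eq ?_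
    have := hden n
    simp only [φ]
    field_simp
    norm_num
  filter_upwards [ContDiffBump.ae_convolution_tendsto_right_of_locallyIntegrable (μ := volume)
    hφ0 hφK hρ.locallyIntegrable] with x hx hxb
  refine le_of_tendsto' hx fun n => key (φ n) ?_ x hxb
  have := hden n
  simp only [φ]
  rw [div_lt_iff₀ this]
  have : (0 : ℝ) ≤ n := Nat.cast_nonneg n
  nlinarith

end Pool.Agent.Y953.OP
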